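import Pool.Agent.TH265.V.Main
set_option autoImplicit false

/-!
`K_2` of the curves `(1 - y^N) (1 - x^M) (1 - (x/e)^M) = 1` over number fields; for `M = N = 2` these
are the curves `W^2 = (x^2 - 1) (x^2 - e^2) (x^2 - 1 - e^2)` of genus two.
-/

namespace Pool.Agent.Results.MP_0a9c3b_nt.FullRankGenusTwo

open Pool.Agent.TH826.MH (eqn)

open Pool.Agent.TH265.V

universe u v

/-- Let `N = p + 1 ≥ 2` and `M = q + 1 ≥ 2`. There is a constant `c > 1` with the following property.
Let `K` be a number field with a primitive `N`-th root of unity `ζ` and a primitive `M`-th root of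
unity `ω`, let `σ` and `τ` be complex embeddings of `K` and let `e` be a unit of the ring of integers
of `K` with `|σ e| ≥ c` and `|τ e| ≤ 1 / c`. Then the curve `(1 - y^N) (1 - x^M) (1 - (x/e)^M) = 1` has
a coordinate ring which is a domain, and it is smooth at all complex points with `x ≠ 0`; the
`2 M (N - 1)` symbols `{(y - ζ^j) / (y - ζ^(j+1)), (x - a) / x}`, `0 ≤ j < N - 1`, `a = ω^k` or
`a = ω^k e`, in `K_2` of the open part `x ≠ 0`, are unramified at all discrete valuations of the
function field; and there are `2 M (N - 1)` loops in the complex points, half of them over `τ` and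
half of them over `σ`, such that the determinant of the regulators of the symbols on the loops does
not vanish. Moreover for every unit `e₀` which is not a root of unity there are `σ` and `τ` such that
`e = e₀^m` satisfies the condition for all large `m`.

For `M = N = 2` the curve has genus `2`, and if `K` is a real quadratic field the number `4` of the
symbols is the number `g [K : ℚ]` predicted by Beilinson's conjecture. -/
theorem result (p q : ℕ) (hp : 1 ≤ p) (_hq : 1 ≤ q) :
    ∃ c : ℝ, 1 < c ∧
      (∀ (K : Type u) [Field K] [NumberField K] (σ τ : K →+* ℂ) (ζ ω e : K),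
        IsPrimitiveRoot ζ (p + 1) → IsPrimitiveRoot ω (q + 1) → IsIntegral ℤ e →
        IsIntegral ℤ e⁻¹ → c ≤ ‖σ e‖ → ‖τ e‖ * c ≤ 1 →
        eqn (lm (al q ω e)) (rts p ζ (al q ω e)) = poly p q e ∧
        IsDomain (Crv p ζ (al q ω e)) ∧
        (∀ ρ : K →+* ℂ, SmoothOff (poly p q e) ρ) ∧ UnramifiedSymbols.{u, v} p ζ (al q ω e) ∧
        IndependentRegulators p ζ (al q ω e) (pls q σ τ)) ∧
      ∀ (K : Type u) [Field K] [NumberField K] (e₀ : K), IsIntegral ℤ e₀ → IsIntegral ℤ e₀⁻¹ →
        e₀ ≠ 0 → (∀ n : ℕ, 0 < n → e₀ ^ n ≠ 1) →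
        ∃ (σ τ : K →+* ℂ) (M : ℕ), ∀ m ≥ M, c ≤ ‖σ (e₀ ^ m)‖ ∧ ‖τ (e₀ ^ m)‖ * c ≤ 1 :=
  main p q hp

end Pool.Agent.Results.MP_0a9c3b_nt.FullRankGenusTwo
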