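import Pool.Agent.TH690.UE.Final
set_option autoImplicit false

/-!
Integral `K_2` of elliptic curves over real quadratic fields `K`: for *every* unit `w ≠ ± 1` of `K`,
the elliptic curve `z + 1/z = w x² - w - 1/w` has two unramified symbols whose regulators on a loop
over each of the two real places have nonzero determinant (`2 = g [K : ℚ]`, the number of classes
expected by Beilinson).
-/

namespace Pool.Agent.Results.MP_0a9c3b_nt.RealQuadraticUnits

open NumberField

open Pool.Agent.TH690.UE

/-- *Real quadratic fields.* Let `K` be a real quadratic field with the embeddings `s₁`, `s₂`, let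
`w ≠ ± 1` be a unit of `K`, `F = w x² - w - 1/w`, `p = 1 + 1/w` and `q = 1 - 1/w`. Then
(`TwoClasses`) the coordinate ring of the plane curve `z² - F(x) z + 1 = 0` over `K` is a domain,
the curve is smooth at its complex points over `s₁` and `s₂`, all symbols
`{z, (x - b) / (x - b')}`, `b, b' ∈ {± p, ± q}`, are unramified at all discrete valuations of the
function field, and there are a loop in the complex points over `s₁` and a loop in the complex
points over `s₂` of the open part `(x² - p²) (x² - q²) ≠ 0` of the curve such that the determinant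
of the regulators of the two symbols `{z, (x - p) / (x + p)}`, `{z, (x - q) / (x + q)}` on the two
loops does not vanish.

*General form.* All this holds for any number field `K` with two embeddings `s 0`, `s 1` into `ℝ`,
and `F = c x² + t`, where `c, t, p, q` are algebraic integers of `K` such that, at `s 0` and at
`s 1`, `|t| > 2` and `F(p)`, `F(q)` are of the form `ζ + 1/ζ` with roots of unity `ζ`, if the signs
of `p q` at `s 0` and `s 1` are opposite. -/
theorem result.{u, v} (K : Type u) [Field K] [NumberField K] :
    (Module.finrank ℚ K = 2 → ∀ s₁ s₂ : K →+* ℝ, s₁ ≠ s₂ → ∀ w : (𝓞 K)ˣ, (w : K) ^ 2 ≠ 1 →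
      TwoClasses.{u, v} (qf (w : K) (-((w : K) + (w : K)⁻¹)))
        (pts (1 + (w : K)⁻¹) (1 - (w : K)⁻¹)) ![cpx s₁, cpx s₂]) ∧
    (∀ (s : Fin 2 → (K →+* ℝ)) (c t p q : K), IsIntegral ℤ c → IsIntegral ℤ t → IsIntegral ℤ p →
      IsIntegral ℤ q → (∀ l, Special (cpx (s l)) (c * p ^ 2 + t)) →
      (∀ l, Special (cpx (s l)) (c * q ^ 2 + t)) → (∀ l, 2 < |s l t|) →
      s 0 (p * q) * s 1 (p * q) ≤ 0 → TwoClasses.{u, v} (qf c t) (pts p q) fun l => cpx (s l)) :=
  ⟨fun hK _ _ hs w h1 => twoClasses_unit hK hs w h1,
    fun _ _ _ _ _ hc ht hp hq sp sq h0 h1 => twoClasses_real hc ht hp hq sp sq h0 h1⟩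

end Pool.Agent.Results.MP_0a9c3b_nt.RealQuadraticUnits
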