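import Pool.Agent.TH826.UB.Final
set_option autoImplicit false

/-!
Beilinson's conjecture for `K_2` of curves over number fields: on the curves
`λ ∏_{i ≤ m} (x - a_i) ∏_{j ≤ n} (y - b_j) = 1` of genus `g = m n`, `g` integral classes with
linearly independent regulators, for all parameters with `|λ|`, `|a_i - a_k|`, `|b_j - b_l|` at
least `2` (at one place).
-/

namespace Pool.Agent.Results.MP_0a9c3b_nt.UniformBidegree

open Pool.Agent.TH826.MK (KQ symb Unramified Torus)

open Pool.Agent.TH826.MH

/-- Let `σ` be a complex embedding of the number field `K`, let `λ` and `a_{k,i}` (`k = 0, 1`,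
`0 ≤ i ≤ r_k`) be algebraic integers of `K` with `|σ λ| ≥ 2` and `|σ a_{k,i} - σ a_{k,j}| ≥ 2` for
`i ≠ j`. The coordinate ring of the curve `λ ∏_i (x_0 - a_{0,i}) ∏_j (x_1 - a_{1,j}) = 1` is a
domain; the curve is smooth (the gradient does not vanish at the complex points over `σ`); the
`g = r_0 r_1` symbols `{(x_0 - a_{0,i}) / (x_0 - a_{0,i+1}), (x_1 - a_{1,j}) / (x_1 - a_{1,j+1})}`
are unramified at all discrete valuations of the function field; and there are `g` loops in the
complex points (over `σ`) of the curve, such that the determinant of the regulators of the symbols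
on the loops does not vanish. -/
theorem result (r : Fin 2 → ℕ) (K : Type*) [Field K] [NumberField K] (σ : K →+* ℂ) (lam : K)
    (a : ∀ k, Fin (r k + 1) → K) (hlam : IsIntegral ℤ lam) (ha : ∀ k i, IsIntegral ℤ (a k i))
    (hlam2 : 2 ≤ ‖σ lam‖) (hsep : ∀ k i j, i ≠ j → 2 ≤ ‖σ (a k i) - σ (a k j)‖) :
    IsDomain (CRing lam a) ∧
    (∀ x : Fin 2 → ℂ, MvPolynomial.eval₂ σ x (eqn lam a) = 0 →
      ∃ k, MvPolynomial.eval₂ σ x (MvPolynomial.pderiv k (eqn lam a)) ≠ 0) ∧
    (∀ (L : Type*) [Field L] [Algebra (CRing lam a) L] [IsFractionRing (CRing lam a) L],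
      ∀ i : (∀ k, Fin (r k)), KQ.map 2 (algebraMap (CRing lam a) L) (symb (ent lam a i)) ∈
        Unramified L 2) ∧
    ∃ Γ : (∀ k, Fin (r k)) → Torus (CRing lam a) 1,
      (∀ t θ (x : K), (Γ t).e θ (fpol lam a (MvPolynomial.C x)) = σ x) ∧
      (Matrix.of fun t i : (∀ k, Fin (r k)) => (Γ t).reg (symb (ent lam a i))).det ≠ 0 := by
  have hl0 : lam ≠ 0 := by
    intro h0
    rw [h0, map_zero, norm_zero] at hlam2
    linarith
  have hinj : ∀ k, Function.Injective (a k) := by
    intro k i j hij
    by_contra hne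
    have h := hsep k i j hne
    rw [hij, sub_self, norm_zero] at h
    linarith
  exact ⟨isDomain_CRing lam a hl0 hinj,
    fun x hx => Pool.Agent.TH826.UB.smooth (by norm_num) σ a hsep (by linarith) x hx,
    fun L _ _ _ i => symb_mem_unramified (algebraMap (CRing lam a) L) hlam ha i,
    Pool.Agent.TH826.UB.exists_loops hsep hlam2⟩

end Pool.Agent.Results.MP_0a9c3b_nt.UniformBidegree
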