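import Pool.Agent.TH690.UF.Final
set_option autoImplicit false

/-!
Integral `K_2` of hyperelliptic curves of every genus `g` over number fields: for *every* polynomial
`F` of degree `g + 1` with algebraic integers of the number field `K` as coefficients, that has
special values `ζ + 1/ζ` (`ζ` roots of unity) at `g + 1` integral points `b_m` of `K`, on the curve
`z + 1/z = F(x)` the `g` symbols `{z, (x - b_k) / (x - b_0)}` are unramified, and their regulators on
`g` loops of the curve over a complex embedding `s` of `K` are independent, if the `s b_m` are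
sufficiently far from each other or the leading coefficient of `F` is large at `s` (explicit
conditions, no limit).
-/

namespace Pool.Agent.Results.MP_0a9c3b_nt.UniformOverNumberFields

open Polynomial

open Pool.Agent.TH826.MK (KQ symb Torus Unramified)

open Pool.Agent.TH826.HD (PRing POpen pent toP pcst pDel isDomain_PRing pDel_ne_zero liftP
  liftP_toP)

open Pool.Agent.TH690.UF

/-- Let `K` be a number field, `s : K → ℂ` an embedding, `F` a polynomial of degree `g + 1` whose
coefficients are algebraic integers of `K`, and `b_0, ..., b_g` algebraic integers of `K` such that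
all `F(b_m)` are of the form `ζ + 1/ζ` with roots of unity `ζ` (in `ℂ`, via `s`), of absolute value
at most `T` (for example, `T = 2`). Suppose that `|s b_i - s b_j| ≥ D > 0` for `i ≠ j`, that
`2 ^ (g + 2) + 2 T (g + 1) < |s μ| D ^ (g + 1)` for the leading coefficient `μ` of `F`, and that
`D ≥ 2` or `1 < |s μ| (D / 2) ^ (2 g)`. Then the coordinate ring of the plane curve
`z² - F(x) z + 1 = 0` over `K` is a domain, the curve is smooth at its complex points over `s`, the
symbols `{z, (x - b_m) / (x - b_l)}` are unramified at all discrete valuations of the function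
field, and there are `g` loops in the complex points over `s` of the open part `∏_m (x - b_m) ≠ 0`
of the curve such that the determinant of the regulators on the loops of the `g` symbols
`{z, (x - b_k) / (x - b_0)}`, `1 ≤ k ≤ g`, does not vanish. -/
theorem result.{u, v} (g : ℕ) (K : Type u) [Field K] [NumberField K] (s : K →+* ℂ) (F : K[X])
    (hF : ∀ i, IsIntegral ℤ (F.coeff i)) (hdeg : F.natDegree = g + 1) (b : Fin (g + 1) → K)
    (hb : ∀ m, IsIntegral ℤ (b m))
    (hζ : ∀ m, ∃ (ζ : ℂ) (k : ℕ), k ≠ 0 ∧ ζ ^ k = 1 ∧ s (F.eval (b m)) = ζ + ζ⁻¹)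
    (T D : ℝ) (hT : ∀ m, ‖s (F.eval (b m))‖ ≤ T) (hD : 0 < D)
    (hsep : ∀ i j, i ≠ j → D ≤ ‖s (b i) - s (b j)‖)
    (h1 : (2 : ℝ) ^ (g + 2) + 2 * T * (g + 1) < ‖s F.leadingCoeff‖ * D ^ (g + 1))
    (h2 : 2 ≤ D ∨ 1 < ‖s F.leadingCoeff‖ * (D / 2) ^ (2 * g)) :
    IsDomain (PRing F) ∧ SmoothPts s F ∧
    (∀ (L : Type v) [Field L] [Algebra (PRing F) L] [IsFractionRing (PRing F) L],
      ∃ f : POpen F b →+* L, (∀ r : PRing F, f (toP F b r) = algebraMap (PRing F) L r) ∧
        ∀ m l, KQ.map 2 f (symb (pent F b m l)) ∈ Unramified L 2) ∧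
    ∃ Γ : Fin g → Torus (POpen F b) 1,
      (∀ l θ (y : K), (Γ l).e θ (pcst F b y) = s y) ∧
      (Matrix.of fun l k : Fin g => (Γ l).reg (symb (pent F b k.succ 0))).det ≠ 0 := by
  have hζ' : ∀ i, ∃ ζ : ℂ, ‖ζ‖ = 1 ∧ s (F.eval (b i)) = ζ + ζ⁻¹ := by
    intro i
    obtain ⟨ζ, k, hk, h1, h2⟩ := hζ i
    refine ⟨ζ, ?_, h2⟩
    have h3 := congrArg norm h1
    rw [norm_pow, norm_one] at h3
    exact (pow_eq_one_iff_of_nonneg (norm_nonneg _) hk).1 h3
  have hev : ∀ i, (F.map s).eval (s (b i)) = s (F.eval (b i)) := fun i => by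
    rw [eval_map, eval₂_hom]
  have hlead : (F.map s).leadingCoeff = s F.leadingCoeff := leadingCoeff_map s
  have hval2 : ∀ i, ‖(F.map s).eval (s (b i))‖ ≤ 2 := by
    intro i
    obtain ⟨ζ, hn, he⟩ := hζ' i
    rw [hev, he]
    refine (norm_add_le _ _).trans ?_
    rw [norm_inv, hn]
    norm_num
  obtain ⟨η, H⟩ := sepd (F := F.map s) (b := fun i => s (b i)) (D := D) (T := T)
    (by rw [natDegree_map, hdeg]) hD hsep hval2 (fun i => by rw [hev]; exact hT i)
    (by rw [hlead]; exact h1)
  have hdegF : 0 < F.natDegree := by omega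
  refine ⟨isDomain_PRing hdegF, fun x z h => Pool.Agent.TH826.UH.smooth_of_sepd H h, ?_, ?_⟩
  · intro L _ _ _
    have hinj : Function.Injective (algebraMap (PRing F) L) := IsFractionRing.injective _ _
    have hne : algebraMap (PRing F) L (pDel F b) ≠ 0 := by
      rw [Ne, map_eq_zero_iff _ hinj]
      exact pDel_ne_zero b
    exact ⟨liftP (algebraMap (PRing F) L) hne, fun r => liftP_toP _ _ _,
      fun m l => Pool.Agent.TH826.UH.symb_mem_unramified _ s hF hb m l hζ⟩
  · have hfar : ∀ i j, i ≠ j → D / 2 + D / 2 ≤ ‖s (b i) - s (b j)‖ := fun i j hij => by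
      rw [add_halves]
      exact hsep i j hij
    rcases le_or_gt 2 D with hD2 | hD2
    · refine exists_loops H (d := D / 2) (by linarith) hfar ?_ hζ'
      rw [hlead]
      have hT0 : 0 ≤ T := (norm_nonneg _).trans (hT 0)
      have h3 : (0 : ℝ) ≤ 2 * T * (g + 1) := by positivity
      have h4 : (2 : ℝ) ^ (g + 2) = 2 * 2 ^ (g + 1) := by ring
      have h5 : (0 : ℝ) < 2 ^ (g + 1) := by positivity
      rw [div_pow, ← mul_div_assoc, le_div_iff₀ h5]
      linarith
    · refine exists_loops' H (d := D / 2) (by linarith) (by linarith) hfar ?_ hζ'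
      rw [hlead]
      exact h2.resolve_left (not_le.2 hD2)

end Pool.Agent.Results.MP_0a9c3b_nt.UniformOverNumberFields
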